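import Mathlib

/-!
# Project NC: groups of class two with an abelian subgroup of index `p` and small Abelianisation
-/

set_option autoImplicit false

namespace Pool.Agent.Y571.NC

/-- The group of triples `(x, y, c)`, `x, y ∈ (ℤ/p)^m`, `c ∈ ℤ/p`, with
`(x, y, c) (x', y', c') = (x + x', y + y' + c x', c + c')`. -/
@[ext] structure Two (p m : ℕ) where
  /-- First vector. -/
  x : Fin m → ZMod p
  /-- Second vector. -/
  y : Fin m → ZMod p
  /-- Scalar. -/
  c : ZMod p

namespace Two

variable {p m : ℕ}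

instance : Mul (Two p m) := ⟨fun a b => ⟨a.x + b.x, a.y + b.y + a.c • b.x, a.c + b.c⟩⟩
instance : One (Two p m) := ⟨⟨0, 0, 0⟩⟩
instance : Inv (Two p m) := ⟨fun a => ⟨-a.x, -a.y + a.c • a.x, -a.c⟩⟩

theorem mul_x (a b : Two p m) : (a * b).x = a.x + b.x := rfl
theorem mul_y (a b : Two p m) : (a * b).y = a.y + b.y + a.c • b.x := rfl
theorem mul_c (a b : Two p m) : (a * b).c = a.c + b.c := rfl
theorem one_x : (1 : Two p m).x = 0 := rfl
theorem one_y : (1 : Two p m).y = 0 := rfl
theorem one_c : (1 : Two p m).c = 0 := rfl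
theorem inv_x (a : Two p m) : (a⁻¹).x = -a.x := rfl
theorem inv_y (a : Two p m) : (a⁻¹).y = -a.y + a.c • a.x := rfl
theorem inv_c (a : Two p m) : (a⁻¹).c = -a.c := rfl

instance : Group (Two p m) :=
  Group.ofLeftAxioms
    (fun a b c => by
      ext i
      · simp only [mul_x, Pi.add_apply]; ring
      · simp only [mul_x, mul_y, mul_c, Pi.add_apply, Pi.smul_apply, smul_eq_mul]; ring
      · simp only [mul_c]; ring)
    (fun a => by
      ext i
      · simp only [mul_x, one_x, Pi.add_apply, Pi.zero_apply, zero_add]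
      · simp only [mul_y, one_y, one_c, Pi.add_apply, Pi.zero_apply, Pi.smul_apply,
          smul_eq_mul]; ring
      · simp only [mul_c, one_c, zero_add])
    (fun a => by
      ext i
      · simp only [mul_x, one_x, inv_x, Pi.add_apply, Pi.neg_apply, Pi.zero_apply]; ring
      · simp only [mul_y, one_y, inv_y, inv_c, Pi.add_apply, Pi.neg_apply, Pi.zero_apply,
          Pi.smul_apply, smul_eq_mul]; ring
      · simp only [mul_c, inv_c, one_c]; ring)

/-- The triples as a product. -/
def equiv (p m : ℕ) : Two p m ≃ ((Fin m → ZMod p) × (Fin m → ZMod p) × ZMod p) where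
  toFun a := (a.x, a.y, a.c)
  invFun t := ⟨t.1, t.2.1, t.2.2⟩
  left_inv _ := rfl
  right_inv _ := rfl

noncomputable instance [NeZero p] : Fintype (Two p m) := Fintype.ofEquiv _ (equiv p m).symm

theorem card [NeZero p] : Nat.card (Two p m) = p ^ (2 * m + 1) := by
  rw [Nat.card_congr (equiv p m), Nat.card_prod, Nat.card_prod, Nat.card_eq_fintype_card,
    Nat.card_eq_fintype_card, Fintype.card_fun, ZMod.card, Fintype.card_fin]
  ring

/-- The third coordinate. -/
def cHom (p m : ℕ) : Two p m →* Multiplicative (ZMod p) where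
  toFun a := Multiplicative.ofAdd a.c
  map_one' := rfl
  map_mul' _ _ := rfl

theorem cHom_surj : Function.Surjective (cHom p m) := fun t =>
  ⟨⟨0, 0, Multiplicative.toAdd t⟩, rfl⟩

theorem mem_ker {a : Two p m} : a ∈ (cHom p m).ker ↔ a.c = 0 := by
  rw [MonoidHom.mem_ker]
  exact Iff.rfl

theorem ker_comm (a : Two p m) (ha : a ∈ (cHom p m).ker) (b : Two p m)
    (hb : b ∈ (cHom p m).ker) : a * b = b * a := by
  rw [mem_ker] at ha hb
  ext i
  · simp only [mul_x, Pi.add_apply]; ring
  · simp only [mul_y, ha, hb, Pi.add_apply, Pi.smul_apply, smul_eq_mul]; ring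
  · simp only [mul_c, ha, hb]

theorem ker_index [NeZero p] : (cHom p m).ker.index = p := by
  rw [Subgroup.index_ker, MonoidHom.range_eq_top.2 cHom_surj, Subgroup.card_top]
  exact Nat.card_zmod p

/-- Commutators are central: the group has class at most two. -/
theorem class_two (a b z : Two p m) : a * b * a⁻¹ * b⁻¹ * z = z * (a * b * a⁻¹ * b⁻¹) := by
  have hx : (a * b * a⁻¹ * b⁻¹).x = 0 := by
    ext i
    simp only [mul_x, inv_x, Pi.add_apply, Pi.neg_apply, Pi.zero_apply]; ring
  have hc : (a * b * a⁻¹ * b⁻¹).c = 0 := by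
    simp only [mul_c, inv_c]; ring
  generalize a * b * a⁻¹ * b⁻¹ = u at hx hc
  ext i
  · simp only [mul_x, Pi.add_apply]; ring
  · simp only [mul_y, hx, hc, Pi.add_apply, Pi.smul_apply, Pi.zero_apply, smul_eq_mul]; ring
  · simp only [mul_c]; ring

theorem card_ab [NeZero p] : Nat.card (Abelianization (Two p m)) ≤ p ^ (m + 1) := by
  have h1 : ∀ y : Fin m → ZMod p,
      (Abelianization.of (⟨0, y, 0⟩ : Two p m) : Abelianization (Two p m)) = 1 := by
    intro y
    have e1 : (⟨0, 0, 1⟩ : Two p m) * ⟨y, 0, 0⟩ = ⟨0, y, 0⟩ * (⟨y, 0, 0⟩ * ⟨0, 0, 1⟩) := by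
      ext i
      · simp only [mul_x, Pi.add_apply, Pi.zero_apply]; ring
      · simp only [mul_x, mul_y, Pi.add_apply, Pi.zero_apply, Pi.smul_apply,
          smul_eq_mul]; ring
      · simp only [mul_c]; ring
    have e2 := congrArg (Abelianization.of : Two p m →* Abelianization (Two p m)) e1
    rw [map_mul, map_mul, map_mul,
      mul_comm (Abelianization.of (⟨0, 0, 1⟩ : Two p m))] at e2
    exact (right_eq_mul.1 e2)
  have h2 : Function.Surjective (fun t : (Fin m → ZMod p) × ZMod p =>
      (Abelianization.of (⟨t.1, 0, t.2⟩ : Two p m) : Abelianization (Two p m))) := by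
    intro a
    obtain ⟨g, rfl⟩ := QuotientGroup.mk_surjective a
    refine ⟨(g.x, g.c), ?_⟩
    have e1 : g = ⟨0, g.y, 0⟩ * ⟨g.x, 0, g.c⟩ := by
      ext i
      · simp only [mul_x, Pi.add_apply, Pi.zero_apply]; ring
      · simp only [mul_y, Pi.add_apply, Pi.zero_apply, Pi.smul_apply, smul_eq_mul]; ring
      · simp only [mul_c]; ring
    have e2 : (Abelianization.of g : Abelianization (Two p m)) =
        Abelianization.of (⟨g.x, 0, g.c⟩ : Two p m) := by
      conv_lhs => rw [e1]
      rw [map_mul, h1, one_mul]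
    exact e2.symm
  have h3 := Nat.card_le_card_of_surjective _ h2
  rw [Nat.card_prod, Nat.card_fun, Nat.card_zmod, Nat.card_fin] at h3
  calc Nat.card (Abelianization (Two p m)) ≤ p ^ m * p := h3
    _ = p ^ (m + 1) := by ring

end Two

end Pool.Agent.Y571.NC
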