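import Pool.Agent.Y571.NC.Stm

/-!
# Project NC: the reachable set modulo a normal subgroup
-/

set_option autoImplicit false

open Finset

namespace Pool.Agent.Y571.NC

/-- The products of at most `T` generators of a finite group `G` with a normal subgroup `N` and a
subgroup `B` whose commutators lie in `N` form a set of at most `|N| * r * binom (r k + T, T)`
elements, `r` the index of `B`. -/
theorem reachN (h : S_REACH) (G : Type) [Group G] [Fintype G] (N B : Subgroup G) [N.Normal]
    (hB : ∀ a ∈ B, ∀ b ∈ B, a * b * a⁻¹ * b⁻¹ ∈ N) (k : ℕ) (Z : Fin k → G) (T : ℕ) :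
    ∃ R : Finset G,
      R.card ≤ Nat.card N * (B.index * (B.index * k + T).choose T) ∧
      ∀ T' ≤ T, ∀ w : Fin T' → Fin k, (List.ofFn fun j => Z (w j)).prod ∈ R := by
  classical
  have _ : Fintype (G ⧸ N) := Fintype.ofFinite _
  let π : G →* G ⧸ N := QuotientGroup.mk' N
  have hπ : Function.Surjective π := QuotientGroup.mk'_surjective N
  have hcomm : ∀ a ∈ B.map π, ∀ b ∈ B.map π, a * b = b * a := by
    rintro _ ⟨a, ha, rfl⟩ _ ⟨b, hb, rfl⟩
    have h1 : π (a * b * a⁻¹ * b⁻¹) = 1 := by
      have := hB a ha b hb
      exact (QuotientGroup.eq_one_iff _).2 this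
    rw [map_mul, map_mul, map_mul, map_inv, map_inv] at h1
    have h2 : π a * π b * (π a)⁻¹ = π b := by
      rw [mul_inv_eq_one] at h1
      exact h1
    rw [mul_inv_eq_iff_eq_mul] at h2
    exact h2
  obtain ⟨R, hR1, hR2⟩ := h (G ⧸ N) (B.map π) hcomm k (fun i => π (Z i)) T
  have hidx : (B.map π).index ≤ B.index :=
    Nat.le_of_dvd (Nat.pos_of_ne_zero B.index_ne_zero_of_finite) (B.index_map_dvd hπ)
  refine ⟨univ.filter fun g => π g ∈ R, ?_, ?_⟩
  · have h1 : (univ.filter fun g : G => π g ∈ R).card ≤ Nat.card N * R.card := by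
      have h2 : (univ.filter fun g : G => π g ∈ R) ⊆
          R.biUnion fun q => univ.filter fun g : G => π g = q := by
        intro g hg
        rw [mem_filter] at hg
        rw [mem_biUnion]
        exact ⟨π g, hg.2, by simp⟩
      refine (card_le_card h2).trans (card_biUnion_le.trans ?_)
      have h3 : ∀ q ∈ R, (univ.filter fun g : G => π g = q).card ≤ Nat.card N := by
        intro q _
        obtain ⟨g0, rfl⟩ := hπ q
        have _ : Fintype N := Fintype.ofFinite _
        rw [Nat.card_eq_fintype_card, ← Finset.card_univ]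
        refine Finset.card_le_card_of_injOn
          (fun g => if hg : g0⁻¹ * g ∈ N then (⟨g0⁻¹ * g, hg⟩ : N) else 1)
          (fun g _ => by simp) ?_
        intro g hg g' hg' hgg
        have e1 : g0⁻¹ * g ∈ N := by
          have := (mem_filter.1 hg).2
          exact QuotientGroup.eq.1 this.symm
        have e2 : g0⁻¹ * g' ∈ N := by
          have := (mem_filter.1 hg').2
          exact QuotientGroup.eq.1 this.symm
        simp only [e1, e2, dif_pos] at hgg
        have := congrArg Subtype.val hgg
        simpa using this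
      calc ∑ q ∈ R, (univ.filter fun g : G => π g = q).card
          ≤ ∑ _q ∈ R, Nat.card N := Finset.sum_le_sum h3
        _ = Nat.card N * R.card := by rw [Finset.sum_const, smul_eq_mul, mul_comm]
    refine h1.trans (Nat.mul_le_mul_left _ (hR1.trans ?_))
    refine Nat.mul_le_mul hidx (Nat.choose_le_choose _ ?_)
    gcongr
  · intro T' hT' w
    rw [mem_filter]
    refine ⟨mem_univ _, ?_⟩
    have := hR2 T' hT' w
    rw [map_list_prod, List.map_ofFn]
    exact this

end Pool.Agent.Y571.NC
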