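import Pool.Agent.H632R3.DihFam
import Pool.Agent.Y571.NC.Reach

/-!
# Project NC: total variation lower bound for groups with a commutative subgroup of small index
-/

set_option autoImplicit false
set_option linter.unusedSectionVars false

open Finset Filter Topology

namespace Pool.Agent.Y571.NC

open Pool.Agent.H632R3 Pool.Agent.H632R3.RCG

noncomputable section

section pt

variable {G : Type} [Group G] [Fintype G] {k : ℕ}

theorem pointwise (hR : S_REACH) (N B : Subgroup G) [N.Normal]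
    (hB : ∀ a ∈ B, ∀ b ∈ B, a * b * a⁻¹ * b⁻¹ ∈ N) (Z : Fin k → G) {c s s1 κ : ℝ}
    (hc0 : 0 < c) (hc1 : c ≤ 1) (hs : 0 < s) (hs1 : s < s1) (hk2 : 2 ≤ k)
    (h1 : (k : ℝ) ^ c ≤ Real.logb k (Nat.card G)) (h2 : 2 ≤ s1 * Real.logb k (Nat.card G))
    (h3 : s1 * (1 + Real.log (2 / s1 + 1) + Real.log B.index) + 1 + Real.log B.index +
      κ * Real.log k ≤ (1 - s1 * (1 - c)) * Real.log k)
    (h4 : Real.log (Nat.card N) ≤ κ * Real.log (Nat.card G)) {t : ℝ} (ht : 0 ≤ t)
    (hts : t ≤ s * Real.logb k (Nat.card G)) :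
    1 - Real.exp (-((s1 - s) ^ 2 / (4 * s1) * Real.logb k (Nat.card G)))
      - Real.exp (-Real.logb k (Nat.card G)) ≤ RCG.tvDist Z t := by
  set τ := Real.logb k (Nat.card G) with hτ
  set r := B.index with hr
  have hs10 : 0 < s1 := hs.trans hs1
  have hr1 : 1 ≤ r := Nat.one_le_iff_ne_zero.2 B.index_ne_zero_of_finite
  have hrr : (1 : ℝ) ≤ r := by exact_mod_cast hr1
  have hr0 : (0 : ℝ) < r := by linarith
  have hlr : 0 ≤ Real.log r := Real.log_nonneg hrr
  have hkr : (2 : ℝ) ≤ k := by exact_mod_cast hk2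
  have hk0 : (0 : ℝ) < k := by linarith
  have hlk : 0 < Real.log k := Real.log_pos (by linarith)
  have hN0 : (0 : ℝ) < Nat.card G := by exact_mod_cast Nat.card_pos
  have hkc : 1 ≤ (k : ℝ) ^ c := Real.one_le_rpow (by linarith) hc0.le
  have hτ1 : 1 ≤ τ := hkc.trans h1
  have hlogN : Real.log (Nat.card G) = τ * Real.log k := by
    rw [hτ, Real.logb, div_mul_cancel₀ _ hlk.ne']
  set T := ⌊s1 * τ⌋₊ with hT
  have hT1 : (T : ℝ) ≤ s1 * τ := Nat.floor_le (by positivity)
  have hT2 : s1 * τ < T + 1 := Nat.lt_floor_add_one _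
  have hT3 : s1 / 2 * τ ≤ T := by linarith
  have hTr : (0 : ℝ) < T := by
    have : 0 < s1 / 2 * τ := by positivity
    linarith
  have hTpos : 0 < T := by exact_mod_cast hTr
  obtain ⟨R, hRc, hRm⟩ := reachN hR G N B hB k Z T
  set m := Nat.card N with hm
  have hm0 : (0 : ℝ) < m := by exact_mod_cast Nat.card_pos
  have hd := dist_lower (by omega : 0 < k) Z ht T R hRm
  -- the tail
  set lam := (s1 - s) / (2 * s1) with hlamdef
  have hlam0 : 0 < lam := by
    have : 0 < s1 - s := by linarith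
    positivity
  have hlam1 : lam ≤ 1 := by
    rw [hlamdef, div_le_one (by positivity)]
    linarith
  have hlams : lam * (2 * s1) = s1 - s := div_mul_cancel₀ _ (by positivity)
  have htail := pois_tail ht hlam0.le T
  have hexp : Real.exp lam - 1 ≤ lam + lam ^ 2 := by
    have := Real.abs_exp_sub_one_sub_id_le (x := lam) (by rw [abs_of_nonneg hlam0.le]; exact hlam1)
    have := (abs_le.mp this).2
    linarith
  have hexp0 : 0 ≤ Real.exp lam - 1 := by
    have := Real.add_one_le_exp lam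
    linarith
  have htail2 : -(lam * ((T : ℝ) + 1)) + t * (Real.exp lam - 1) ≤
      -((s1 - s) ^ 2 / (4 * s1) * τ) := by
    have e1 : t * (Real.exp lam - 1) ≤ s * τ * (lam + lam ^ 2) :=
      mul_le_mul hts hexp hexp0 (by positivity)
    have e2 : lam * (s1 * τ) ≤ lam * ((T : ℝ) + 1) :=
      mul_le_mul_of_nonneg_left hT2.le hlam0.le
    have e3 : -(lam * (s1 * τ)) + s * τ * (lam + lam ^ 2) =
        -(lam * τ * (s1 - s - s * lam)) := by ring
    have e4 : (s1 - s) / 2 ≤ s1 - s - s * lam := by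
      have : s * lam ≤ s1 * lam := mul_le_mul_of_nonneg_right hs1.le hlam0.le
      linarith
    have e5 : lam * τ * ((s1 - s) / 2) ≤ lam * τ * (s1 - s - s * lam) :=
      mul_le_mul_of_nonneg_left e4 (by positivity)
    have e6 : lam * τ * ((s1 - s) / 2) = (s1 - s) ^ 2 / (4 * s1) * τ := by
      rw [hlamdef]
      field_simp
      ring
    linarith
  have htail3 := Real.exp_le_exp.mpr htail2
  -- the cardinality
  set L := Real.log (2 / s1 + 1) with hL
  have hL1 : (1 : ℝ) ≤ 2 / s1 + 1 := by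
    have : 0 < 2 / s1 := by positivity
    linarith
  have hL0 : 0 ≤ L := Real.log_nonneg hL1
  have hcard : (R.card : ℝ) / (Fintype.card G : ℝ) ≤ Real.exp (-τ) := by
    have hcG : (Fintype.card G : ℝ) = Nat.card G := by rw [Nat.card_eq_fintype_card]
    rw [hcG, div_le_iff₀ hN0]
    have e1 : (R.card : ℝ) ≤ (m * r) * (((r * k + T).choose T : ℕ) : ℝ) := by
      rw [mul_assoc]
      exact_mod_cast hRc
    have hmr : (0 : ℝ) < m * r := mul_pos hm0 hr0
    refine e1.trans
      ((mul_le_mul_of_nonneg_left (Dih.choose_le (K := r * k) hTpos) hmr.le).trans ?_)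
    have e2 : Real.exp 1 * (((r * k : ℕ) : ℝ) / T + 1) ≤
        Real.exp (1 + L + Real.log r + (1 - c) * Real.log k) := by
      have e3 : (k : ℝ) / T ≤ 2 / s1 * (k : ℝ) ^ (1 - c) := by
        have e30 : s1 / 2 * (k : ℝ) ^ c ≤ T :=
          (mul_le_mul_of_nonneg_left h1 (by positivity)).trans hT3
        rw [div_le_iff₀ hTr, Real.rpow_sub hk0, Real.rpow_one]
        have e31 : (k : ℝ) = 2 / s1 * ((k : ℝ) / (k : ℝ) ^ c) * (s1 / 2 * (k : ℝ) ^ c) := by
          field_simp
        calc (k : ℝ) = 2 / s1 * ((k : ℝ) / (k : ℝ) ^ c) * (s1 / 2 * (k : ℝ) ^ c) := e31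
          _ ≤ 2 / s1 * ((k : ℝ) / (k : ℝ) ^ c) * T :=
            mul_le_mul_of_nonneg_left e30 (by positivity)
      have e4 : 1 ≤ (k : ℝ) ^ (1 - c) := Real.one_le_rpow (by linarith) (by linarith)
      have e5 : Real.exp (1 + L + Real.log r + (1 - c) * Real.log k) =
          Real.exp 1 * ((2 / s1 + 1) * (r * (k : ℝ) ^ (1 - c))) := by
        rw [Real.exp_add, Real.exp_add, Real.exp_add, hL, Real.exp_log (by linarith),
          Real.exp_log hr0, Real.rpow_def_of_pos hk0, mul_comm (1 - c)]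
        ring
      rw [e5]
      refine mul_le_mul_of_nonneg_left ?_ (Real.exp_pos 1).le
      push_cast
      have e6 : (r : ℝ) * (k : ℝ) / T = r * (k / T) := by ring
      have e7 : (r : ℝ) * (k / T) ≤ r * (2 / s1 * (k : ℝ) ^ (1 - c)) :=
        mul_le_mul_of_nonneg_left e3 hr0.le
      have e8 : 1 ≤ (r : ℝ) * (k : ℝ) ^ (1 - c) := by
        have := mul_le_mul hrr e4 (by norm_num) hr0.le
        linarith
      have e9 : (2 / s1 + 1) * ((r : ℝ) * (k : ℝ) ^ (1 - c)) =
          r * (2 / s1 * (k : ℝ) ^ (1 - c)) + r * (k : ℝ) ^ (1 - c) := by ring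
      rw [e6, e9]
      linarith
    have e6 : 0 ≤ Real.exp 1 * (((r * k : ℕ) : ℝ) / T + 1) := by positivity
    refine (mul_le_mul_of_nonneg_left (pow_le_pow_left₀ e6 e2 T) hmr.le).trans ?_
    rw [← Real.exp_nat_mul]
    have e0 : (m : ℝ) * r = Real.exp (Real.log m + Real.log r) := by
      rw [Real.exp_add, Real.exp_log hm0, Real.exp_log hr0]
    rw [e0, ← Real.exp_add, ← Real.exp_log hN0, hlogN, ← Real.exp_add]
    rw [hlogN] at h4
    refine Real.exp_le_exp.mpr ?_
    have e7 : 0 ≤ 1 + L + Real.log r + (1 - c) * Real.log k := by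
      have : 0 ≤ (1 - c) * Real.log k := mul_nonneg (by linarith) hlk.le
      linarith
    have e8 := mul_le_mul_of_nonneg_right hT1 e7
    have e9 : s1 * τ * (1 + L + Real.log r + (1 - c) * Real.log k) =
        τ * (s1 * (1 + L + Real.log r) + s1 * (1 - c) * Real.log k) := by ring
    have e10 : τ * (s1 * (1 + L + Real.log r) + s1 * (1 - c) * Real.log k) ≤
        τ * (Real.log k - 1 - Real.log r - κ * Real.log k) :=
      mul_le_mul_of_nonneg_left (by linarith) (by linarith)
    have e11 : Real.log r ≤ τ * Real.log r := le_mul_of_one_le_left hlr hτ1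
    have e12 : τ * (Real.log k - 1 - Real.log r - κ * Real.log k) =
        τ * Real.log k - τ - τ * Real.log r - κ * (τ * Real.log k) := by ring
    linarith
  linarith

end pt

section fam

variable (G : ℕ → Type) [∀ j, Group (G j)] [∀ j, Fintype (G j)] (N B : ∀ j, Subgroup (G j))
  [∀ j, (N j).Normal] (k : ℕ → ℕ) (hk : Tendsto k atTop atTop) {C : ℝ} (hC : 0 < C)
  (hkN : ∀ᶠ j in atTop, (k j : ℝ) ≤ Real.log (Nat.card (G j)) ^ C)

theorem core (hR : S_REACH) (hB : ∀ j, ∀ a ∈ B j, ∀ b ∈ B j, a * b * a⁻¹ * b⁻¹ ∈ N j)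
    (hr : Tendsto (fun j => Real.log (B j).index / Real.log (k j)) atTop (𝓝 0))
    (hm : Tendsto (fun j => Real.log (Nat.card (N j)) / Real.log (Nat.card (G j))) atTop (𝓝 0))
    {c s : ℝ} (hc0 : 0 < c) (hc1 : c ≤ 1) (hs : 0 < s) (hsc : s * (1 - c) < 1)
    (hk : Tendsto k atTop atTop)
    (hkN : ∀ᶠ j in atTop, (k j : ℝ) ^ c * Real.log (k j) ≤ Real.log (Nat.card (G j))) {δ : ℝ}
    (hδ : 0 < δ) :
    ∀ᶠ j in atTop, ∀ Z : Fin (k j) → G j, ∀ t : ℝ, 0 ≤ t →
      t ≤ s * Real.logb (k j) (Nat.card (G j)) → 1 - δ ≤ RCG.tvDist Z t := by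
  obtain ⟨s1, hs1, hs1c⟩ : ∃ s1 : ℝ, s < s1 ∧ s1 * (1 - c) < 1 := by
    refine ⟨s + (1 - s * (1 - c)) / 2, by linarith, ?_⟩
    have h1 : 0 < 1 - s * (1 - c) := by linarith
    have h2 : (1 - s * (1 - c)) / 2 * (1 - c) ≤ (1 - s * (1 - c)) / 2 * 1 :=
      mul_le_mul_of_nonneg_left (by linarith) (by linarith)
    have h3 : (s + (1 - s * (1 - c)) / 2) * (1 - c) =
        s * (1 - c) + (1 - s * (1 - c)) / 2 * (1 - c) := by ring
    rw [h3]
    linarith
  have hs10 : 0 < s1 := hs.trans hs1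
  set κ := 1 - s1 * (1 - c) with hκ
  have hκ0 : 0 < κ := by linarith
  have hkr : Tendsto (fun j => (k j : ℝ)) atTop atTop := tendsto_natCast_atTop_atTop.comp hk
  have hkc : Tendsto (fun j => (k j : ℝ) ^ c) atTop atTop := (tendsto_rpow_atTop hc0).comp hkr
  have hτge : ∀ᶠ j in atTop, (k j : ℝ) ^ c ≤ Real.logb (k j) (Nat.card (G j)) := by
    filter_upwards [hkN, hkr.eventually_ge_atTop 2] with j h1 h2
    have hlk : 0 < Real.log (k j) := Real.log_pos (by linarith)
    rw [Real.logb, le_div_iff₀ hlk]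
    exact h1
  have hτ : Tendsto (fun j => Real.logb (k j) (Nat.card (G j))) atTop atTop :=
    tendsto_atTop_mono' _ hτge hkc
  have hpos : 0 < (s1 - s) ^ 2 / (4 * s1) := by
    have : 0 < s1 - s := by linarith
    positivity
  have he1 : Tendsto (fun j => Real.exp (-((s1 - s) ^ 2 / (4 * s1) *
      Real.logb (k j) (Nat.card (G j))))) atTop (𝓝 0) :=
    Real.tendsto_exp_neg_atTop_nhds_zero.comp (hτ.const_mul_atTop hpos)
  have he2 : Tendsto (fun j => Real.exp (-Real.logb (k j) (Nat.card (G j)))) atTop (𝓝 0) :=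
    Real.tendsto_exp_neg_atTop_nhds_zero.comp hτ
  have hlog : Tendsto (fun j => κ / 3 * Real.log (k j)) atTop atTop :=
    (Real.tendsto_log_atTop.comp hkr).const_mul_atTop (by positivity)
  have hr' : ∀ᶠ j in atTop, Real.log (B j).index / Real.log (k j) < κ / (6 * (s1 + 1)) :=
    hr.eventually_lt_const (by positivity)
  have hm' : ∀ᶠ j in atTop,
      Real.log (Nat.card (N j)) / Real.log (Nat.card (G j)) < κ / 3 :=
    hm.eventually_lt_const (by positivity)
  filter_upwards [hτge, hkr.eventually_ge_atTop 2, he1.eventually_lt_const (half_pos hδ),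
    he2.eventually_lt_const (half_pos hδ),
    (hτ.const_mul_atTop hs10).eventually_ge_atTop 2,
    hlog.eventually_ge_atTop (s1 * (1 + Real.log (2 / s1 + 1)) + 1), hr', hm'] with
    j h1 h2 h3 h4 h5 h6 h7 h9 Z t ht0 ht1
  have hk2 : 2 ≤ k j := by exact_mod_cast h2
  have hlk : 0 < Real.log (k j) := Real.log_pos (by linarith)
  rw [div_lt_iff₀ hlk] at h7
  have hlG : 0 < Real.log (Nat.card (G j)) := by
    have e1 : 0 < (k j : ℝ) ^ c := by positivity
    have e2 := e1.trans_le h1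
    rw [Real.logb] at e2
    exact (div_pos_iff_of_pos_right hlk).1 e2
  rw [div_lt_iff₀ hlG] at h9
  have hi : 0 ≤ Real.log ((B j).index : ℝ) := Real.log_natCast_nonneg _
  have h8 : s1 * (1 + Real.log (2 / s1 + 1) + Real.log (B j).index) + 1 +
      Real.log (B j).index + κ / 3 * Real.log (k j) ≤ (1 - s1 * (1 - c)) * Real.log (k j) := by
    rw [← hκ]
    have e1 : (s1 + 1) * Real.log ((B j).index : ℝ) ≤ κ / 6 * Real.log (k j) := by
      have e0 : 0 < s1 + 1 := by linarith
      calc (s1 + 1) * Real.log ((B j).index : ℝ)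
          ≤ (s1 + 1) * (κ / (6 * (s1 + 1)) * Real.log (k j)) :=
            mul_le_mul_of_nonneg_left h7.le e0.le
        _ = κ / 6 * Real.log (k j) := by field_simp
    have e2 : s1 * (1 + Real.log (2 / s1 + 1) + Real.log ((B j).index : ℝ)) =
        s1 * (1 + Real.log (2 / s1 + 1)) + s1 * Real.log ((B j).index : ℝ) := by ring
    have e3 : (s1 + 1) * Real.log ((B j).index : ℝ) =
        s1 * Real.log ((B j).index : ℝ) + Real.log ((B j).index : ℝ) := by ring
    have e4 : 0 ≤ κ * Real.log (k j) := by positivity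
    rw [e2]
    linarith
  have := pointwise hR (N j) (B j) (hB j) Z hc0 hc1 hs hs1 hk2 h1 h5 h8 h9.le ht0 ht1
  linarith

include hk hkN in
theorem exists_c {c : ℝ} (hC : 0 < C) (hcC : c < 1 / C) :
    ∀ᶠ j in atTop, (k j : ℝ) ^ c * Real.log (k j) ≤ Real.log (Nat.card (G j)) := by
  have hkr : Tendsto (fun j => (k j : ℝ)) atTop atTop := tendsto_natCast_atTop_atTop.comp hk
  have h1 : ∀ᶠ x : ℝ in atTop, Real.log x ≤ x ^ (1 / C - c) := by
    have := isLittleO_log_rpow_atTop (r := 1 / C - c) (by linarith)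
    have h2 := this.bound (c := 1) one_pos
    filter_upwards [h2, eventually_ge_atTop 1] with x hx hx1
    rw [Real.norm_of_nonneg (Real.log_nonneg hx1), Real.norm_of_nonneg (by positivity),
      one_mul] at hx
    exact hx
  filter_upwards [hkr.eventually h1, hkN, hkr.eventually_ge_atTop 1] with j h2 h3 h4
  have hlogpos : 0 ≤ Real.log (Nat.card (G j)) := Real.log_natCast_nonneg _
  calc (k j : ℝ) ^ c * Real.log (k j)
      ≤ (k j : ℝ) ^ c * (k j : ℝ) ^ (1 / C - c) :=
        mul_le_mul_of_nonneg_left h2 (by positivity)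
    _ = (k j : ℝ) ^ (1 / C) := by
        rw [← Real.rpow_add (by linarith)]; congr 1; ring
    _ ≤ (Real.log (Nat.card (G j)) ^ C) ^ (1 / C) :=
        Real.rpow_le_rpow (by linarith) h3 (by positivity)
    _ = Real.log (Nat.card (G j)) := by
        rw [← Real.rpow_mul hlogpos, mul_one_div, div_self hC.ne', Real.rpow_one]

include hk hC hkN in
theorem logb_tendsto : Tendsto (fun j => Real.logb (k j) (Nat.card (G j))) atTop atTop := by
  have hc0 : 0 < 1 / (2 * C) := by positivity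
  have hcC : 1 / (2 * C) < 1 / C := one_div_lt_one_div_of_lt hC (by linarith)
  have hc := exists_c G k hk hkN hC hcC
  have hkr : Tendsto (fun j => (k j : ℝ)) atTop atTop := tendsto_natCast_atTop_atTop.comp hk
  have hkc : Tendsto (fun j => (k j : ℝ) ^ (1 / (2 * C))) atTop atTop :=
    (tendsto_rpow_atTop hc0).comp hkr
  refine tendsto_atTop_mono' _ ?_ hkc
  filter_upwards [hc, hkr.eventually_ge_atTop 2] with j h1 h2
  have hlk : 0 < Real.log (k j) := Real.log_pos (by linarith)
  rw [Real.logb, le_div_iff₀ hlk]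
  exact h1

include hk hC hkN in
/-- The walk is far from uniform at all times up to `s log_k |G|`, `s (1 - 1 / C) < 1`, for all
generators. -/
theorem family (hR : S_REACH) (hB : ∀ j, ∀ a ∈ B j, ∀ b ∈ B j, a * b * a⁻¹ * b⁻¹ ∈ N j)
    (hr : Tendsto (fun j => Real.log (B j).index / Real.log (k j)) atTop (𝓝 0))
    (hm : Tendsto (fun j => Real.log (Nat.card (N j)) / Real.log (Nat.card (G j))) atTop (𝓝 0))
    {s : ℝ} (hs : s * (1 - 1 / C) < 1) {δ : ℝ} (hδ : 0 < δ) :
    ∀ᶠ j in atTop, ∀ Z : Fin (k j) → G j, ∀ t : ℝ, 0 ≤ t →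
      t ≤ s * Real.logb (k j) (Nat.card (G j)) → 1 - δ ≤ RCG.tvDist Z t := by
  -- it is enough to consider `s ≥ 1`
  set s' := max s 1 with hs'
  have hs'1 : 1 ≤ s' := le_max_right _ _
  have hs'0 : 0 < s' := by linarith
  have hs'C : s' * (1 - 1 / C) < 1 := by
    rcases max_choice s 1 with h | h
    · rw [hs', h]
      exact hs
    · rw [hs', h, one_mul]
      have : 0 < 1 / C := by positivity
      linarith
  have hlt : max 0 (1 - 1 / s') < min 1 (1 / C) := by
    have h1 : 0 < 1 / C := by positivity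
    have h2 : 0 < 1 / s' := by positivity
    have h3 : 1 - 1 / s' < 1 / C := by
      have h4 : (1 - 1 / C) < 1 / s' := by
        rw [lt_div_iff₀ hs'0]
        linarith
      linarith
    rw [max_lt_iff, lt_min_iff, lt_min_iff]
    exact ⟨⟨one_pos, h1⟩, by linarith, h3⟩
  obtain ⟨c, hc1, hc2⟩ := exists_between hlt
  have hc0 : 0 < c := (le_max_left _ _).trans_lt hc1
  have hcs : 1 - 1 / s' < c := (le_max_right _ _).trans_lt hc1
  have hcc : c ≤ 1 := (hc2.trans_le (min_le_left _ _)).le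
  have hcC : c < 1 / C := hc2.trans_le (min_le_right _ _)
  have hsc : s' * (1 - c) < 1 := by
    have h1 : 1 - c < 1 / s' := by linarith
    rw [lt_div_iff₀ hs'0] at h1
    linarith
  filter_upwards [core G N B k hR hB hr hm hc0 hcc hs'0 hsc hk (exists_c G k hk hkN hC hcC) hδ,
    (logb_tendsto G k hk hC hkN).eventually_ge_atTop 0] with j h1 h2 Z t ht0 ht1
  exact h1 Z t ht0 (ht1.trans (mul_le_mul_of_nonneg_right (le_max_left _ _) h2))

include hk hC hkN in
/-- No cutoff at `t_*`, quantitatively and for all generators. -/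
theorem far_tStar (hR : S_REACH) (hB : ∀ j, ∀ a ∈ B j, ∀ b ∈ B j, a * b * a⁻¹ * b⁻¹ ∈ N j)
    (hr : Tendsto (fun j => Real.log (B j).index / Real.log (k j)) atTop (𝓝 0))
    (hm : Tendsto (fun j => Real.log (Nat.card (N j)) / Real.log (Nat.card (G j))) atTop (𝓝 0))
    {s : ℝ} (hs : s * (1 - 1 / C) < 1)
    (ht : ∀ᶠ j in atTop, t0 (k j) (Nat.card (Abelianization (G j))) ≤
      s * Real.logb (k j) (Nat.card (G j))) :
    ∃ ε : ℝ, 0 < ε ∧ ε < 1 ∧ ∀ δ : ℝ, 0 < δ → ∀ᶠ j in atTop,
      ∀ Z : Fin (k j) → G j, 1 - δ ≤ RCG.tvDist Z ((1 + ε) * tStar (G j) (k j)) := by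
  set s' := max s 1 with hs'
  have hs'1 : 1 ≤ s' := le_max_right _ _
  have hs'0 : 0 < s' := by linarith
  have hs'C : s' * (1 - 1 / C) < 1 := by
    rcases max_choice s 1 with h | h
    · rw [hs', h]
      exact hs
    · rw [hs', h, one_mul]
      have : 0 < 1 / C := by positivity
      linarith
  set q := s' * (1 - 1 / C) with hq
  obtain ⟨ε, he0, he1, heq⟩ : ∃ ε : ℝ, 0 < ε ∧ ε < 1 ∧ (1 + ε) * q < 1 := by
    refine ⟨min (1 / 2) ((1 - q) / 2), lt_min (by norm_num) (by linarith),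
      (min_le_left _ _).trans_lt (by norm_num), ?_⟩
    have h1 : 0 < min (1 / 2) ((1 - q) / 2) := lt_min (by norm_num) (by linarith)
    rcases le_or_gt q 0 with h | h
    · have : (1 + min (1 / 2) ((1 - q) / 2)) * q ≤ 0 :=
        mul_nonpos_of_nonneg_of_nonpos (by linarith) h
      linarith
    · have h2 : (1 + min (1 / 2) ((1 - q) / 2)) * q ≤ (1 + (1 - q) / 2) * q :=
        mul_le_mul_of_nonneg_right (by linarith [min_le_right (1 / 2) ((1 - q) / 2)]) h.le
      nlinarith
  refine ⟨ε, he0, he1, fun δ hδ => ?_⟩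
  have hs2 : ((1 + ε) * s') * (1 - 1 / C) < 1 := by
    rw [mul_assoc, ← hq]
    exact heq
  filter_upwards [family G N B k hk hC hkN hR hB hr hm hs2 hδ, ht,
    (logb_tendsto G k hk hC hkN).eventually_ge_atTop 0] with j h1 h2 h3 Z
  have h4 : tStar (G j) (k j) ≤ s' * Real.logb (k j) (Nat.card (G j)) := by
    refine max_le (h2.trans (mul_le_mul_of_nonneg_right (le_max_left _ _) h3)) ?_
    exact le_mul_of_one_le_left h3 hs'1
  have h5 : 0 ≤ tStar (G j) (k j) := h3.trans (le_max_right _ _)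
  refine h1 Z _ (mul_nonneg (by linarith) h5) ?_
  rw [mul_assoc]
  exact mul_le_mul_of_nonneg_left h4 (by linarith)

omit hk in
theorem noCutoff_of (h : ∃ ε : ℝ, 0 < ε ∧ ε < 1 ∧ ∀ δ : ℝ, 0 < δ → ∀ᶠ j in atTop,
      ∀ Z : Fin (k j) → G j, 1 - δ ≤ RCG.tvDist Z ((1 + ε) * tStar (G j) (k j))) :
    ¬ CutoffWhpAt G k (fun j => tStar (G j) (k j)) := by
  intro h'
  obtain ⟨ε, h0, h1, h2⟩ := h
  have h3 := (h' ε h0 h1 (1 / 2) (by norm_num)).1
  have h4 : ∀ᶠ j in atTop, prob (G j) (k j)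
      (fun Z => RCG.tvDist Z ((1 + ε) * tStar (G j) (k j)) ≤ 1 / 2) = 0 := by
    filter_upwards [h2 (1 / 4) (by norm_num)] with j h5
    have : IsEmpty {Z : Fin (k j) → G j //
        RCG.tvDist Z ((1 + ε) * tStar (G j) (k j)) ≤ 1 / 2} := by
      refine ⟨fun Z => ?_⟩
      have h6 := h5 Z.1
      have h7 := Z.2
      linarith
    unfold prob
    rw [Nat.card_of_isEmpty]
    simp
  have h5 := h3.congr' h4
  have h6 := tendsto_nhds_unique h5 tendsto_const_nhds
  norm_num at h6

include hk hC hkN in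
theorem card_tendsto : Tendsto (fun j => Nat.card (G j)) atTop atTop := by
  have hkr : Tendsto (fun j => (k j : ℝ)) atTop atTop := tendsto_natCast_atTop_atTop.comp hk
  have h1 : Tendsto (fun j => (k j : ℝ) ^ (1 / C)) atTop atTop :=
    (tendsto_rpow_atTop (by positivity)).comp hkr
  rw [← tendsto_natCast_atTop_iff (R := ℝ)]
  refine tendsto_atTop_mono' _ ?_ h1
  filter_upwards [hkN] with j h2
  have hlogpos : 0 ≤ Real.log (Nat.card (G j)) := Real.log_natCast_nonneg _
  have h0 : (0 : ℝ) < Nat.card (G j) := by exact_mod_cast Nat.card_pos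
  calc (k j : ℝ) ^ (1 / C) ≤ (Real.log (Nat.card (G j)) ^ C) ^ (1 / C) :=
        Real.rpow_le_rpow (Nat.cast_nonneg _) h2 (by positivity)
    _ = Real.log (Nat.card (G j)) := by
        rw [← Real.rpow_mul hlogpos, mul_one_div, div_self hC.ne', Real.rpow_one]
    _ ≤ Nat.card (G j) := by
        have := Real.log_le_sub_one_of_pos h0
        linarith

include hk hC hkN in
theorem log_div_tendsto :
    Tendsto (fun j => Real.log (k j) / Real.log (Nat.card (G j))) atTop (𝓝 0) := by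
  have h1 := (logb_tendsto G k hk hC hkN).inv_tendsto_atTop
  refine h1.congr fun j => ?_
  simp only [Pi.inv_apply]
  rw [Real.logb, inv_div]

end fam

end

end Pool.Agent.Y571.NC
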