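import Pool.Agent.H632R3.RCG

/-!
# Project NC: lower bound for the Poisson entropy, upper bound for the entropic time
-/

set_option autoImplicit false

open Finset Filter Topology

namespace Pool.Agent.Y571.NC

open Pool.Agent.H632R3.RCG

theorem poisson_mean (s : ℝ) :
    HasSum (fun j : ℕ => Real.exp (-s) * s ^ j / (j.factorial : ℝ) * (j : ℝ)) s := by
  have h1 := (poisson_hasSum s).mul_left s
  rw [mul_one] at h1
  have h2 : HasSum (fun n : ℕ => Real.exp (-s) * s ^ (n + 1) / ((n + 1).factorial : ℝ) *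
      ((n + 1 : ℕ) : ℝ)) s := by
    refine h1.congr_fun fun n => ?_
    rw [Nat.factorial_succ]
    push_cast
    have hf : (0 : ℝ) < (n.factorial : ℝ) := by exact_mod_cast n.factorial_pos
    have hn : (0 : ℝ) < (n : ℝ) + 1 := by positivity
    field_simp
    try ring
  have h3 := (hasSum_nat_add_iff (f := fun j : ℕ =>
    Real.exp (-s) * s ^ j / (j.factorial : ℝ) * (j : ℝ)) 1).1 h2
  simpa using h3

/-- The entropy of the Poisson law of mean `s` is at least `s (1 - log s)`. -/
theorem le_entropy {s : ℝ} (hs : 0 < s) : s * (1 - Real.log s) ≤ poissonEntropy s := by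
  have h1 : HasSum (fun j : ℕ => Real.exp (-s) * s ^ j / (j.factorial : ℝ) * s -
      Real.exp (-s) * s ^ j / (j.factorial : ℝ) * (j : ℝ) * Real.log s)
      (1 * s - s * Real.log s) :=
    ((poisson_hasSum s).mul_right s).sub ((poisson_mean s).mul_right (Real.log s))
  have h2 : s * (1 - Real.log s) = 1 * s - s * Real.log s := by ring
  unfold poissonEntropy
  rw [h2, ← h1.tsum_eq]
  refine h1.summable.tsum_le_tsum (fun j => ?_) (entropy_summable hs.le)
  have hf : (0 : ℝ) < (j.factorial : ℝ) := by exact_mod_cast j.factorial_pos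
  have hp : 0 < Real.exp (-s) * s ^ j / (j.factorial : ℝ) := by positivity
  have h3 : Real.log (Real.exp (-s) * s ^ j / (j.factorial : ℝ)) =
      -s + j * Real.log s - Real.log (j.factorial : ℝ) := by
    rw [Real.log_div (by positivity) hf.ne', Real.log_mul (Real.exp_pos _).ne' (by positivity),
      Real.log_exp, Real.log_pow]
  have h4 : 0 ≤ Real.log (j.factorial : ℝ) :=
    Real.log_nonneg (by exact_mod_cast j.factorial_pos)
  rw [Real.negMulLog, h3]
  have h5 : 0 ≤ Real.exp (-s) * s ^ j / (j.factorial : ℝ) * Real.log (j.factorial : ℝ) :=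
    mul_nonneg hp.le h4
  nlinarith

theorem t0_le_of {k M : ℕ} {t : ℝ} (ht : 0 < t) (hk : 0 < k)
    (h : Real.log M ≤ t * (1 + Real.log (k / t))) : t0 k M ≤ t := by
  refine csInf_le ⟨0, fun t ht => ht.1⟩ ⟨ht.le, h.trans ?_⟩
  have hkr : (0 : ℝ) < k := by exact_mod_cast hk
  have h1 := mul_le_mul_of_nonneg_left (le_entropy (s := t / k) (by positivity)) hkr.le
  have h2 : (k : ℝ) * (t / k * (1 - Real.log (t / k))) = t * (1 + Real.log (k / t)) := by
    rw [Real.log_div ht.ne' hkr.ne', Real.log_div hkr.ne' ht.ne']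
    field_simp
    ring
  rw [h2] at h1
  exact h1

end Pool.Agent.Y571.NC
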