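import Pool.Agent.Y571.NC.Core
import Pool.Agent.Y571.NC.Ent

/-!
# Project NC: the regime `k ≫ log |G|`, bound by the entropic time of an abelian group
-/

set_option autoImplicit false
set_option linter.unusedSectionVars false

open Finset Filter Topology

namespace Pool.Agent.Y571.NC

open Pool.Agent.H632R3 Pool.Agent.H632R3.RCG

noncomputable section

/-- The time scale `log |G| / log (k / log |G|)`, asymptotic to `t_0 (k, |G|)` for
`k ≫ log |G|`. -/
def tEnt (n k : ℕ) : ℝ := Real.log n / Real.log (k / Real.log n)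

section pt

variable {G : Type} [Group G] [Fintype G] {k : ℕ}

theorem pointwise2 (hR : S_REACH) (N B : Subgroup G) [N.Normal]
    (hB : ∀ a ∈ B, ∀ b ∈ B, a * b * a⁻¹ * b⁻¹ ∈ N) (Z : Fin k → G) {s s1 η : ℝ}
    (hs : 0 < s) (hs1 : s < s1) (hk : 0 < k) (hG : 0 < Real.log (Nat.card G))
    (hκ : 1 ≤ Real.log (k / Real.log (Nat.card G)))
    (h2 : 2 ≤ s1 * tEnt (Nat.card G) k)
    (hX : 1 + Real.log (2 / s1 + 1) + Real.log B.index +
      Real.log (Real.log (k / Real.log (Nat.card G))) ≤
      η * Real.log (k / Real.log (Nat.card G)))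
    (hr : Real.log B.index ≤ η * Real.log (Nat.card G))
    (hm : Real.log (Nat.card N) ≤ η * Real.log (Nat.card G))
    (hτη : 1 ≤ η * Real.log (k / Real.log (Nat.card G)))
    (hsum : s1 * (1 + η) + 3 * η ≤ 1) {t : ℝ} (ht : 0 ≤ t)
    (hts : t ≤ s * tEnt (Nat.card G) k) :
    1 - Real.exp (-((s1 - s) ^ 2 / (4 * s1) * tEnt (Nat.card G) k))
      - Real.exp (-tEnt (Nat.card G) k) ≤ RCG.tvDist Z t := by
  set ell := Real.log (Nat.card G) with hell
  set κ := (k : ℝ) / ell with hκdef
  set τ := tEnt (Nat.card G) k with hτ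
  have hlκ : 0 < Real.log κ := by linarith
  have hτe : τ = ell / Real.log κ := rfl
  have hτκ : τ * Real.log κ = ell := by rw [hτe]; exact div_mul_cancel₀ _ hlκ.ne'
  have hτ0 : 0 < τ := by rw [hτe]; positivity
  set r := B.index with hrdef
  have hs10 : 0 < s1 := hs.trans hs1
  have hr1 : 1 ≤ r := Nat.one_le_iff_ne_zero.2 B.index_ne_zero_of_finite
  have hrr : (1 : ℝ) ≤ r := by exact_mod_cast hr1
  have hr0 : (0 : ℝ) < r := by linarith
  have hlr : 0 ≤ Real.log r := Real.log_nonneg hrr
  have hk0 : (0 : ℝ) < k := by exact_mod_cast hk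
  have hκ0 : 0 < κ := by positivity
  have hκ1 : 1 ≤ κ := by
    by_contra h
    push Not at h
    have := Real.log_nonpos hκ0.le h.le
    linarith
  have hN0 : (0 : ℝ) < Nat.card G := by exact_mod_cast Nat.card_pos
  set T := ⌊s1 * τ⌋₊ with hT
  have hT1 : (T : ℝ) ≤ s1 * τ := Nat.floor_le (by positivity)
  have hT2 : s1 * τ < T + 1 := Nat.lt_floor_add_one _
  have hT3 : s1 / 2 * τ ≤ T := by linarith
  have hTr : (0 : ℝ) < T := by
    have : 0 < s1 / 2 * τ := by positivity
    linarith
  have hTpos : 0 < T := by exact_mod_cast hTr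
  obtain ⟨R, hRc, hRm⟩ := reachN hR G N B hB k Z T
  set m := Nat.card N with hmdef
  have hm0 : (0 : ℝ) < m := by exact_mod_cast Nat.card_pos
  have hd := dist_lower hk Z ht T R hRm
  -- the tail
  set lam := (s1 - s) / (2 * s1) with hlamdef
  have hlam0 : 0 < lam := by
    have : 0 < s1 - s := by linarith
    positivity
  have hlam1 : lam ≤ 1 := by
    rw [hlamdef, div_le_one (by positivity)]
    linarith
  have hlams : lam * (2 * s1) = s1 - s := div_mul_cancel₀ _ (by positivity)
  have htail := pois_tail ht hlam0.le T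
  have hexp : Real.exp lam - 1 ≤ lam + lam ^ 2 := by
    have := Real.abs_exp_sub_one_sub_id_le (x := lam) (by rw [abs_of_nonneg hlam0.le]; exact hlam1)
    have := (abs_le.mp this).2
    linarith
  have hexp0 : 0 ≤ Real.exp lam - 1 := by
    have := Real.add_one_le_exp lam
    linarith
  have htail2 : -(lam * ((T : ℝ) + 1)) + t * (Real.exp lam - 1) ≤
      -((s1 - s) ^ 2 / (4 * s1) * τ) := by
    have e1 : t * (Real.exp lam - 1) ≤ s * τ * (lam + lam ^ 2) :=
      mul_le_mul hts hexp hexp0 (by positivity)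
    have e2 : lam * (s1 * τ) ≤ lam * ((T : ℝ) + 1) :=
      mul_le_mul_of_nonneg_left hT2.le hlam0.le
    have e3 : -(lam * (s1 * τ)) + s * τ * (lam + lam ^ 2) =
        -(lam * τ * (s1 - s - s * lam)) := by ring
    have e4 : (s1 - s) / 2 ≤ s1 - s - s * lam := by
      have : s * lam ≤ s1 * lam := mul_le_mul_of_nonneg_right hs1.le hlam0.le
      linarith
    have e5 : lam * τ * ((s1 - s) / 2) ≤ lam * τ * (s1 - s - s * lam) :=
      mul_le_mul_of_nonneg_left e4 (by positivity)
    have e6 : lam * τ * ((s1 - s) / 2) = (s1 - s) ^ 2 / (4 * s1) * τ := by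
      rw [hlamdef]
      field_simp
      ring
    linarith
  have htail3 := Real.exp_le_exp.mpr htail2
  -- the cardinality
  set L := Real.log (2 / s1 + 1) with hL
  have hL1 : (1 : ℝ) ≤ 2 / s1 + 1 := by
    have : 0 < 2 / s1 := by positivity
    linarith
  have hL0 : 0 ≤ L := Real.log_nonneg hL1
  have hcard : (R.card : ℝ) / (Fintype.card G : ℝ) ≤ Real.exp (-τ) := by
    have hcG : (Fintype.card G : ℝ) = Nat.card G := by rw [Nat.card_eq_fintype_card]
    rw [hcG, div_le_iff₀ hN0]
    have e1 : (R.card : ℝ) ≤ (m * r) * (((r * k + T).choose T : ℕ) : ℝ) := by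
      rw [mul_assoc]
      exact_mod_cast hRc
    have hmr : (0 : ℝ) < m * r := mul_pos hm0 hr0
    refine e1.trans
      ((mul_le_mul_of_nonneg_left (Dih.choose_le (K := r * k) hTpos) hmr.le).trans ?_)
    have e2 : Real.exp 1 * (((r * k : ℕ) : ℝ) / T + 1) ≤
        Real.exp (1 + L + Real.log r + Real.log (Real.log κ) + Real.log κ) := by
      have e3 : (k : ℝ) / T ≤ 2 / s1 * (κ * Real.log κ) := by
        rw [div_le_iff₀ hTr]
        have e31 : (k : ℝ) = 2 / s1 * (κ * Real.log κ) * (s1 / 2 * τ) := by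
          have e32 : 2 / s1 * (κ * Real.log κ) * (s1 / 2 * τ) =
              (2 / s1 * (s1 / 2)) * (κ * (τ * Real.log κ)) := by ring
          rw [e32, hτκ, hκdef, div_mul_cancel₀ _ hG.ne']
          field_simp
        calc (k : ℝ) = 2 / s1 * (κ * Real.log κ) * (s1 / 2 * τ) := e31
          _ ≤ 2 / s1 * (κ * Real.log κ) * T :=
            mul_le_mul_of_nonneg_left hT3 (by positivity)
      have e4 : 1 ≤ κ * Real.log κ := by
        have := mul_le_mul hκ1 hκ (by norm_num) hκ0.le
        linarith
      have e5 : Real.exp (1 + L + Real.log r + Real.log (Real.log κ) + Real.log κ) =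
          Real.exp 1 * ((2 / s1 + 1) * (r * (κ * Real.log κ))) := by
        rw [Real.exp_add, Real.exp_add, Real.exp_add, Real.exp_add, hL,
          Real.exp_log (by linarith), Real.exp_log hr0, Real.exp_log hlκ, Real.exp_log hκ0]
        ring
      rw [e5]
      refine mul_le_mul_of_nonneg_left ?_ (Real.exp_pos 1).le
      push_cast
      have e6 : (r : ℝ) * (k : ℝ) / T = r * (k / T) := by ring
      have e7 : (r : ℝ) * (k / T) ≤ r * (2 / s1 * (κ * Real.log κ)) :=
        mul_le_mul_of_nonneg_left e3 hr0.le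
      have e8 : 1 ≤ (r : ℝ) * (κ * Real.log κ) := by
        have := mul_le_mul hrr e4 (by norm_num) hr0.le
        linarith
      have e9 : (2 / s1 + 1) * ((r : ℝ) * (κ * Real.log κ)) =
          r * (2 / s1 * (κ * Real.log κ)) + r * (κ * Real.log κ) := by ring
      rw [e6, e9]
      linarith
    have e6 : 0 ≤ Real.exp 1 * (((r * k : ℕ) : ℝ) / T + 1) := by positivity
    refine (mul_le_mul_of_nonneg_left (pow_le_pow_left₀ e6 e2 T) hmr.le).trans ?_
    rw [← Real.exp_nat_mul]
    have e0 : (m : ℝ) * r = Real.exp (Real.log m + Real.log r) := by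
      rw [Real.exp_add, Real.exp_log hm0, Real.exp_log hr0]
    have e00 : (Nat.card G : ℝ) = Real.exp ell := by rw [hell, Real.exp_log hN0]
    rw [e0, ← Real.exp_add, e00, ← Real.exp_add]
    refine Real.exp_le_exp.mpr ?_
    have hη0 : 0 ≤ η := by
      by_contra h
      push Not at h
      have : η * Real.log κ < 0 := mul_neg_of_neg_of_pos h hlκ
      linarith
    have e7 : 1 + L + Real.log r + Real.log (Real.log κ) + Real.log κ ≤
        (1 + η) * Real.log κ := by linarith
    have e8 : (T : ℝ) * (1 + L + Real.log r + Real.log (Real.log κ) + Real.log κ) ≤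
        s1 * τ * ((1 + η) * Real.log κ) :=
      (mul_le_mul_of_nonneg_left e7 hTr.le).trans
        (mul_le_mul_of_nonneg_right hT1 (by positivity))
    have e9 : s1 * τ * ((1 + η) * Real.log κ) = s1 * (1 + η) * ell := by
      rw [← hτκ]; ring
    have e10 : τ ≤ η * ell := by
      have := mul_le_mul_of_nonneg_left hτη hτ0.le
      have e11 : τ * (η * Real.log κ) = η * ell := by rw [← hτκ]; ring
      linarith
    have e12 := mul_le_mul_of_nonneg_right hsum hG.le
    have e13 : (s1 * (1 + η) + 3 * η) * ell = s1 * (1 + η) * ell + 3 * (η * ell) := by ring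
    linarith
  linarith

end pt

section fam

variable (G : ℕ → Type) [∀ j, Group (G j)] [∀ j, Fintype (G j)] (N B : ∀ j, Subgroup (G j))
  [∀ j, (N j).Normal] (k : ℕ → ℕ)

theorem core2 (hR : S_REACH) (hB : ∀ j, ∀ a ∈ B j, ∀ b ∈ B j, a * b * a⁻¹ * b⁻¹ ∈ N j)
    (hn : Tendsto (fun j => Nat.card (G j)) atTop atTop)
    (hk : Tendsto (fun j => (k j : ℝ) / Real.log (Nat.card (G j))) atTop atTop)
    (hkG : Tendsto (fun j => Real.log (k j) / Real.log (Nat.card (G j))) atTop (𝓝 0))
    (hr : Tendsto (fun j => Real.log (B j).index /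
      Real.log (k j / Real.log (Nat.card (G j)))) atTop (𝓝 0))
    (hm : Tendsto (fun j => Real.log (Nat.card (N j)) / Real.log (Nat.card (G j))) atTop (𝓝 0))
    {s : ℝ} (hs : s < 1) {δ : ℝ} (hδ : 0 < δ) :
    ∀ᶠ j in atTop, ∀ Z : Fin (k j) → G j, ∀ t : ℝ, 0 ≤ t →
      t ≤ s * tEnt (Nat.card (G j)) (k j) → 1 - δ ≤ RCG.tvDist Z t := by
  have hell : Tendsto (fun j => Real.log (Nat.card (G j))) atTop atTop :=
    Real.tendsto_log_atTop.comp (tendsto_natCast_atTop_atTop.comp hn)
  have hlκ : Tendsto (fun j => Real.log (k j / Real.log (Nat.card (G j)))) atTop atTop :=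
    Real.tendsto_log_atTop.comp hk
  -- `k` is large and `log κ ≤ log k`
  have hfac : ∀ᶠ j in atTop, 1 ≤ Real.log (Nat.card (G j)) ∧
      1 ≤ (k j : ℝ) / Real.log (Nat.card (G j)) ∧ 0 < k j ∧
      Real.log (k j / Real.log (Nat.card (G j))) ≤ Real.log (k j) := by
    filter_upwards [hell.eventually_ge_atTop 1, hk.eventually_ge_atTop 1] with j h1 h2
    have h0 : 0 < Real.log (Nat.card (G j)) := by linarith
    have h3 : 0 < k j := by
      rcases Nat.eq_zero_or_pos (k j) with h | h
      · rw [h, Nat.cast_zero, zero_div] at h2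
        linarith
      · exact h
    refine ⟨h1, h2, h3, Real.log_le_log (by linarith) ?_⟩
    exact div_le_self (Nat.cast_nonneg _) h1
  have hinv : Tendsto (fun j => Real.log (k j / Real.log (Nat.card (G j))) /
      Real.log (Nat.card (G j))) atTop (𝓝 0) := by
    refine tendsto_of_tendsto_of_tendsto_of_le_of_le' tendsto_const_nhds hkG ?_ ?_
    · filter_upwards [hfac] with j h
      exact div_nonneg (Real.log_nonneg h.2.1) (by linarith [h.1])
    · filter_upwards [hfac] with j h
      exact div_le_div_of_nonneg_right h.2.2.2 (by linarith [h.1])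
  have hτ : Tendsto (fun j => tEnt (Nat.card (G j)) (k j)) atTop atTop := by
    have hpos : ∀ᶠ j in atTop, 0 < Real.log (k j / Real.log (Nat.card (G j))) /
        Real.log (Nat.card (G j)) := by
      filter_upwards [hfac, hlκ.eventually_ge_atTop 1] with j h h'
      exact div_pos (by linarith) (by linarith [h.1])
    have h1 : Tendsto (fun j => Real.log (k j / Real.log (Nat.card (G j))) /
        Real.log (Nat.card (G j))) atTop (𝓝[>] 0) :=
      tendsto_nhdsWithin_iff.2 ⟨hinv, hpos⟩
    refine h1.inv_tendsto_nhdsGT_zero.congr fun j => ?_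
    simp only [Pi.inv_apply, inv_div]
    rfl
  -- it is enough to treat `s > 0`
  set s' := max s (1 / 2) with hs'
  have hs'0 : 0 < s' := lt_of_lt_of_le (by norm_num) (le_max_right _ _)
  have hs'1 : s' < 1 := max_lt hs (by norm_num)
  set s1 := (s' + 1) / 2 with hs1def
  have hs1 : s' < s1 := by rw [hs1def]; linarith
  have hs11 : s1 < 1 := by rw [hs1def]; linarith
  have hs10 : 0 < s1 := hs'0.trans hs1
  set η := (1 - s1) / 8 with hη
  have hη0 : 0 < η := by
    have : 0 < 1 - s1 := by linarith
    positivity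
  have hsum : s1 * (1 + η) + 3 * η ≤ 1 := by
    have : s1 * η ≤ 1 * η := mul_le_mul_of_nonneg_right hs11.le hη0.le
    nlinarith
  have hpos : 0 < (s1 - s') ^ 2 / (4 * s1) := by
    have : 0 < s1 - s' := by linarith
    positivity
  have he1 : Tendsto (fun j => Real.exp (-((s1 - s') ^ 2 / (4 * s1) *
      tEnt (Nat.card (G j)) (k j)))) atTop (𝓝 0) :=
    Real.tendsto_exp_neg_atTop_nhds_zero.comp (hτ.const_mul_atTop hpos)
  have he2 : Tendsto (fun j => Real.exp (-tEnt (Nat.card (G j)) (k j))) atTop (𝓝 0) :=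
    Real.tendsto_exp_neg_atTop_nhds_zero.comp hτ
  have hloglog : ∀ᶠ j in atTop, Real.log (Real.log (k j / Real.log (Nat.card (G j)))) ≤
      η / 3 * Real.log (k j / Real.log (Nat.card (G j))) := by
    have h1 := Real.isLittleO_log_id_atTop.bound (c := η / 3) (by positivity)
    filter_upwards [hlκ.eventually h1, hlκ.eventually_ge_atTop 1] with j h2 h3
    have h4 : (0 : ℝ) ≤ id (Real.log (k j / Real.log (Nat.card (G j)))) := zero_le_one.trans h3
    rw [Real.norm_of_nonneg (Real.log_nonneg h3), Real.norm_of_nonneg h4] at h2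
    exact h2
  have hconst : ∀ᶠ j in atTop, 1 + Real.log (2 / s1 + 1) ≤
      η / 3 * Real.log (k j / Real.log (Nat.card (G j))) :=
    (hlκ.const_mul_atTop (by positivity : (0 : ℝ) < η / 3)).eventually_ge_atTop _
  have hr' : ∀ᶠ j in atTop, Real.log (B j).index /
      Real.log (k j / Real.log (Nat.card (G j))) < η / 3 :=
    hr.eventually_lt_const (by positivity)
  have hm' : ∀ᶠ j in atTop,
      Real.log (Nat.card (N j)) / Real.log (Nat.card (G j)) < η :=
    hm.eventually_lt_const hη0
  have hinv' : ∀ᶠ j in atTop, Real.log (k j / Real.log (Nat.card (G j))) /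
      Real.log (Nat.card (G j)) < 1 := hinv.eventually_lt_const (by norm_num)
  filter_upwards [hfac, hlκ.eventually_ge_atTop 1, he1.eventually_lt_const (half_pos hδ),
    he2.eventually_lt_const (half_pos hδ), (hτ.const_mul_atTop hs10).eventually_ge_atTop 2,
    hloglog, hconst, hr', hm', hinv',
    (hlκ.const_mul_atTop hη0).eventually_ge_atTop 1, hτ.eventually_ge_atTop 0] with
    j h1 h2 h3 h4 h5 h6 h7 h8 h9 h10 h11 h12 Z t ht0 ht1
  have hG : 0 < Real.log (Nat.card (G j)) := by linarith [h1.1]
  have hl : 0 < Real.log (k j / Real.log (Nat.card (G j))) := by linarith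
  rw [div_lt_iff₀ hl] at h8
  rw [div_lt_iff₀ hG] at h9 h10
  have hrη : Real.log ((B j).index : ℝ) ≤ η * Real.log (Nat.card (G j)) := by
    have e1 : η / 3 * Real.log (k j / Real.log (Nat.card (G j))) ≤
        η / 3 * (1 * Real.log (Nat.card (G j))) :=
      mul_le_mul_of_nonneg_left h10.le (by positivity)
    have e2 : η / 3 * (1 * Real.log (Nat.card (G j))) ≤ η * Real.log (Nat.card (G j)) := by
      have : 0 ≤ η * Real.log (Nat.card (G j)) := by positivity
      nlinarith
    linarith
  have h13 : t ≤ s' * tEnt (Nat.card (G j)) (k j) :=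
    ht1.trans (mul_le_mul_of_nonneg_right (le_max_left _ _) h12)
  have := pointwise2 hR (N j) (B j) (hB j) Z hs'0 hs1 h1.2.2.1 hG h2 h5
    (by linarith) hrη h9.le h11 hsum ht0 h13
  linarith

/-- In the regime `k ≫ log |G|`, `k ≤ (log |G|) ^ C`, with `|A| ≤ |G| ^ a`, `a < 1`, the time
`t_*` is smaller than the entropic time of `G` by a constant factor. -/
theorem tStar_le (hn : Tendsto (fun j => Nat.card (G j)) atTop atTop)
    (hk : Tendsto (fun j => (k j : ℝ) / Real.log (Nat.card (G j))) atTop atTop)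
    {C : ℝ} (hC : 0 < C) (hkN : ∀ᶠ j in atTop, (k j : ℝ) ≤ Real.log (Nat.card (G j)) ^ C)
    {a : ℝ} (ha : a < 1)
    (hA : ∀ᶠ j in atTop, Real.log (Nat.card (Abelianization (G j))) ≤
      a * Real.log (Nat.card (G j))) :
    ∃ s : ℝ, 0 < s ∧ s < 1 ∧ ∀ᶠ j in atTop,
      tStar (G j) (k j) ≤ s * tEnt (Nat.card (G j)) (k j) := by
  have hell : Tendsto (fun j => Real.log (Nat.card (G j))) atTop atTop :=
    Real.tendsto_log_atTop.comp (tendsto_natCast_atTop_atTop.comp hn)
  have hlκ : Tendsto (fun j => Real.log (k j / Real.log (Nat.card (G j)))) atTop atTop :=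
    Real.tendsto_log_atTop.comp hk
  set s := max (max a (1 / 2)) (1 - 1 / C) with hs
  have hs1 : s < 1 := by
    refine max_lt (max_lt ha (by norm_num)) ?_
    have : 0 < 1 / C := by positivity
    linarith
  have hs0 : 0 < s := lt_of_lt_of_le (by norm_num) ((le_max_right a (1 / 2)).trans
    (le_max_left _ _))
  have hsa : a ≤ s := (le_max_left _ _).trans (le_max_left _ _)
  have hsC : 1 - 1 / C ≤ s := le_max_right _ _
  refine ⟨s, hs0, hs1, ?_⟩
  filter_upwards [hell.eventually_ge_atTop 1, hlκ.eventually_ge_atTop 1, hkN, hA] with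
    j h1 h2 h3 h4
  have hG : 0 < Real.log (Nat.card (G j)) := by linarith
  have hl : 0 < Real.log (k j / Real.log (Nat.card (G j))) := by linarith
  have hτ0 : 0 < tEnt (Nat.card (G j)) (k j) := div_pos hG hl
  have hκ0 : 0 < (k j : ℝ) / Real.log (Nat.card (G j)) := by
    by_contra h
    have h' : (k j : ℝ) / Real.log (Nat.card (G j)) = 0 :=
      le_antisymm (not_lt.1 h) (div_nonneg (Nat.cast_nonneg _) hG.le)
    rw [h', Real.log_zero] at h2
    linarith
  have hk0 : (0 : ℝ) < k j := by
    rcases Nat.eq_zero_or_pos (k j) with h | h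
    · rw [h, Nat.cast_zero, zero_div] at hκ0
      exact absurd hκ0 (lt_irrefl _)
    · exact_mod_cast h
  have hτκ : tEnt (Nat.card (G j)) (k j) * Real.log (k j / Real.log (Nat.card (G j))) =
      Real.log (Nat.card (G j)) := div_mul_cancel₀ _ hl.ne'
  have hlogκ : Real.log (k j / Real.log (Nat.card (G j))) =
      Real.log (k j) - Real.log (Real.log (Nat.card (G j))) := Real.log_div hk0.ne' hG.ne'
  have hll : 0 ≤ Real.log (Real.log (Nat.card (G j))) := Real.log_nonneg h1
  have hlk : 0 < Real.log (k j) := by linarith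
  refine max_le ?_ ?_
  · -- the entropic time of the Abelianisation
    refine t0_le_of (mul_pos hs0 hτ0) (by exact_mod_cast hk0) ?_
    have e1 : Real.log (k j / Real.log (Nat.card (G j))) ≤
        Real.log (k j / (s * tEnt (Nat.card (G j)) (k j))) := by
      refine Real.log_le_log hκ0 (div_le_div_of_nonneg_left hk0.le (mul_pos hs0 hτ0) ?_)
      have e2 : tEnt (Nat.card (G j)) (k j) ≤ Real.log (Nat.card (G j)) :=
        div_le_self hG.le h2
      calc s * tEnt (Nat.card (G j)) (k j) ≤ 1 * tEnt (Nat.card (G j)) (k j) :=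
            mul_le_mul_of_nonneg_right hs1.le hτ0.le
        _ ≤ Real.log (Nat.card (G j)) := by rw [one_mul]; exact e2
    have e3 : s * tEnt (Nat.card (G j)) (k j) *
        Real.log (k j / Real.log (Nat.card (G j))) ≤ s * tEnt (Nat.card (G j)) (k j) *
        (1 + Real.log (k j / (s * tEnt (Nat.card (G j)) (k j)))) :=
      mul_le_mul_of_nonneg_left (by linarith) (mul_pos hs0 hτ0).le
    have e4 : s * tEnt (Nat.card (G j)) (k j) *
        Real.log (k j / Real.log (Nat.card (G j))) = s * Real.log (Nat.card (G j)) := by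
      rw [mul_assoc, hτκ]
    have e5 : a * Real.log (Nat.card (G j)) ≤ s * Real.log (Nat.card (G j)) :=
      mul_le_mul_of_nonneg_right hsa hG.le
    linarith
  · -- the diameter time
    have e1 : Real.log (k j) ≤ C * Real.log (Real.log (Nat.card (G j))) := by
      have := Real.log_le_log hk0 h3
      rwa [Real.log_rpow hG] at this
    have e2 : Real.log (k j / Real.log (Nat.card (G j))) ≤ s * Real.log (k j) := by
      rw [hlogκ]
      have e3 : Real.log (k j) / C ≤ Real.log (Real.log (Nat.card (G j))) := by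
        rw [div_le_iff₀ hC]
        linarith
      have e4 : (1 - 1 / C) * Real.log (k j) ≤ s * Real.log (k j) :=
        mul_le_mul_of_nonneg_right hsC hlk.le
      have e5 : (1 - 1 / C) * Real.log (k j) = Real.log (k j) - Real.log (k j) / C := by ring
      linarith
    show Real.log (Nat.card (G j)) / Real.log (k j) ≤ s * tEnt (Nat.card (G j)) (k j)
    rw [div_le_iff₀ hlk]
    calc Real.log (Nat.card (G j))
        = tEnt (Nat.card (G j)) (k j) * Real.log (k j / Real.log (Nat.card (G j))) := hτκ.symm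
      _ ≤ tEnt (Nat.card (G j)) (k j) * (s * Real.log (k j)) :=
        mul_le_mul_of_nonneg_left e2 hτ0.le
      _ = s * tEnt (Nat.card (G j)) (k j) * Real.log (k j) := by ring

end fam

end

end Pool.Agent.Y571.NC
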