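import Mathlib

/-!
# Project NC: random Cayley graphs of groups with an abelian subgroup of small index
-/

set_option autoImplicit false

namespace Pool.Agent.Y571.NC

/-- The products of at most `T` generators of a finite group with a commutative subgroup `B` form a
set of at most `r * binom (r k + T, T)` elements, `r` the index of `B`. -/
def S_REACH : Prop :=
  ∀ (G : Type) [Group G] [Fintype G] (B : Subgroup G), (∀ a ∈ B, ∀ b ∈ B, a * b = b * a) →
    ∀ (k : ℕ) (Z : Fin k → G) (T : ℕ), ∃ R : Finset G,
      R.card ≤ B.index * (B.index * k + T).choose T ∧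
      ∀ T' ≤ T, ∀ w : Fin T' → Fin k, (List.ofFn fun j => Z (w j)).prod ∈ R

/-- For every prime `p` there are groups of order `p ^ (m (p - 1) + 1)` with a commutative subgroup
of index `p` and an Abelianisation of order at most `p ^ 2`. -/
def S_PFAM : Prop :=
  ∀ p : ℕ, p.Prime → ∃ (G : ℕ → Type) (_ : ∀ m, Group (G m)) (_ : ∀ m, Fintype (G m))
    (B : ∀ m, Subgroup (G m)), ∀ m, (∀ a ∈ B m, ∀ b ∈ B m, a * b = b * a) ∧ (B m).index = p ∧
      Nat.card (G m) = p ^ (m * (p - 1) + 1) ∧ Nat.card (Abelianization (G m)) ≤ p ^ 2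

end Pool.Agent.Y571.NC
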